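import Pool.Agent.E8helper61.EF.Stm

/-!
# Project EF, piece NUM: the numerical inequality
-/

set_option autoImplicit false

open Finset

namespace Pool.Agent.E8helper47.EF

open Pool.Agent.E8helper61.EF

theorem geom (t : ℕ) : ∑ s ∈ range t, (1 / 7 : ℝ) ^ (t - s) ≤ 1 / 6 := by
  induction t with
  | zero => norm_num
  | succ t ih =>
    rw [Finset.sum_range_succ]
    have h1 : ∑ s ∈ range t, (1 / 7 : ℝ) ^ (t + 1 - s) =
        (∑ s ∈ range t, (1 / 7 : ℝ) ^ (t - s)) * (1 / 7) := by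
      rw [Finset.sum_mul]
      refine Finset.sum_congr rfl (fun s hs => ?_)
      rw [mem_range] at hs
      rw [show t + 1 - s = (t - s) + 1 by omega, pow_succ]
    rw [h1, show t + 1 - t = 1 by omega, pow_one]
    linarith

/-- the bound for `bb` -/
theorem bb_le (k m D : ℕ) (hk : 1 ≤ k) (hDm : D / k ≤ m) :
    (bb k m D : ℝ) ≤ 2 ^ D * (1 + ((2 : ℝ) ^ k)⁻¹) ^ m := by
  unfold bb
  push_cast
  have h1 : ∀ s ∈ range (D / k + 1), (m.choose s : ℝ) * 2 ^ (D - k * s) =
      2 ^ D * ((((2 : ℝ) ^ k)⁻¹) ^ s * (m.choose s : ℝ)) := by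
    intro s hs
    rw [mem_range] at hs
    have hks : k * s ≤ D := by
      calc k * s ≤ k * (D / k) := Nat.mul_le_mul le_rfl (by omega)
        _ ≤ D := Nat.mul_div_le D k
    have h2 : (2 : ℝ) ^ D = 2 ^ (D - k * s) * (2 ^ k) ^ s := by
      rw [← pow_mul, ← pow_add]
      congr 1
      omega
    rw [h2]
    have h3 : ((2 : ℝ) ^ k) ^ s ≠ 0 := by positivity
    rw [inv_pow]
    field_simp
  rw [Finset.sum_congr rfl h1, ← Finset.mul_sum]
  apply mul_le_mul_of_nonneg_left _ (by positivity)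
  rw [add_comm (1 : ℝ), add_pow]
  simp only [one_pow, mul_one]
  apply Finset.sum_le_sum_of_subset_of_nonneg
  · intro s hs
    rw [mem_range] at hs ⊢
    omega
  · intro i _ _
    positivity

theorem choose_step (N t : ℕ) (L : ℝ) (ht : 1 ≤ t) (hL0 : 0 ≤ L) (hL : L * t ≤ (N : ℝ) - t) :
    ∀ j : ℕ, j ≤ t → (N.choose (t - j) : ℝ) * L ^ j ≤ N.choose t := by
  have htN : (t : ℝ) ≤ N := by
    have : 0 ≤ L * t := by positivity
    linarith
  have htN' : t ≤ N := by exact_mod_cast htN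
  have ht0 : (0 : ℝ) < t := by exact_mod_cast ht
  intro j
  induction j with
  | zero => intro _; simp
  | succ j ih =>
    intro hj
    refine le_trans ?_ (ih (by omega))
    obtain ⟨s, hs⟩ : ∃ s, s = t - (j + 1) := ⟨_, rfl⟩
    have hs1 : t - j = s + 1 := by omega
    rw [← hs, hs1, pow_succ]
    have h1 : (N.choose (s + 1) : ℝ) * ((s : ℝ) + 1) = N.choose s * ((N : ℝ) - s) := by
      have h2 := Nat.choose_succ_right_eq N s
      have h3 : ((N - s : ℕ) : ℝ) = (N : ℝ) - s := by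
        rw [Nat.cast_sub (by omega)]
      rw [← h3]
      exact_mod_cast h2
    have hst : (s : ℝ) + 1 ≤ t := by
      have : s + 1 ≤ t := by omega
      exact_mod_cast this
    have h4 : (N.choose s : ℝ) * L ≤ N.choose (s + 1) := by
      have h5 : (N.choose s : ℝ) * L * t ≤ N.choose (s + 1) * t := by
        calc (N.choose s : ℝ) * L * t = N.choose s * (L * t) := by ring
          _ ≤ N.choose s * ((N : ℝ) - s) := by
            apply mul_le_mul_of_nonneg_left _ (by positivity)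
            linarith
          _ = N.choose (s + 1) * ((s : ℝ) + 1) := h1.symm
          _ ≤ N.choose (s + 1) * t := by
            apply mul_le_mul_of_nonneg_left hst (by positivity)
      exact le_of_mul_le_mul_right h5 ht0
    calc (N.choose s : ℝ) * (L ^ j * L) = (N.choose s * L) * L ^ j := by ring
      _ ≤ N.choose (s + 1) * L ^ j := by
        apply mul_le_mul_of_nonneg_right h4 (by positivity)

theorem num : NumStatement := by
  intro n k d hk hkd hdn hyp x hx
  obtain ⟨N, hN⟩ : ∃ N, N = n - 2 * d := ⟨_, rfl⟩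
  obtain ⟨t, ht⟩ : ∃ t, t = d / k := ⟨_, rfl⟩
  obtain ⟨r, hr⟩ : ∃ r, r = d % k := ⟨_, rfl⟩
  have hd : k * t + r = d := by rw [ht, hr]; exact Nat.div_add_mod d k
  have ht1 : 1 ≤ t := by rw [ht]; exact Nat.div_pos hkd hk
  rw [← hN, ← ht]
  rw [← hN, ← ht] at hyp
  rw [← hr] at hx
  set Q : ℝ := (1 + ((2 : ℝ) ^ k)⁻¹) ^ (2 * d) with hQ
  have hQ1 : 1 ≤ Q := by
    apply one_le_pow₀
    have : 0 ≤ ((2 : ℝ) ^ k)⁻¹ := by positivity
    linarith
  have hQe : Q * 2 ^ (2 * k * d) = (2 ^ k + 1) ^ (2 * d) := by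
    rw [hQ, show 2 * k * d = k * (2 * d) by ring, pow_mul (2 : ℝ) k (2 * d), ← mul_pow]
    congr 1
    field_simp
  have hypR : 8 * t * 2 ^ k * Q ≤ N := by
    have h1 : (8 * (t : ℝ) * 2 ^ k * (2 ^ k + 1) ^ (2 * d)) ≤ N * 2 ^ (2 * k * d) := by
      exact_mod_cast hyp
    rw [← hQe] at h1
    have h2 : (8 * t * 2 ^ k * Q) * 2 ^ (2 * k * d) ≤ N * 2 ^ (2 * k * d) := by
      calc (8 * t * 2 ^ k * Q) * 2 ^ (2 * k * d) = 8 * (t : ℝ) * 2 ^ k * (Q * 2 ^ (2 * k * d)) := by
            ring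
        _ ≤ _ := h1
    exact le_of_mul_le_mul_right h2 (by positivity)
  have ht0 : (0 : ℝ) < t := by exact_mod_cast ht1
  have h2k : (1 : ℝ) ≤ 2 ^ k := one_le_pow₀ (by norm_num)
  have hL : (7 * 2 ^ k * Q) * t ≤ (N : ℝ) - t := by
    have h1 : (t : ℝ) ≤ t * (2 ^ k * Q) := by
      have : (1 : ℝ) ≤ 2 ^ k * Q := one_le_mul_of_one_le_of_one_le h2k hQ1
      nlinarith
    nlinarith
  have hstep := choose_step N t (7 * 2 ^ k * Q) ht1 (by positivity) hL
  -- the terms of the second sum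
  have hterm : ∀ s ∈ range t, (N.choose s : ℝ) * (bb k (2 * d) (d - k * s) : ℝ) ≤
      2 ^ r * N.choose t * (1 / 7 : ℝ) ^ (t - s) := by
    intro s hs
    rw [mem_range] at hs
    have hks : k * s ≤ k * t := Nat.mul_le_mul le_rfl hs.le
    have hD : d - k * s = r + k * (t - s) := by
      have : k * (t - s) = k * t - k * s := Nat.mul_sub k t s
      omega
    have h1 : (bb k (2 * d) (d - k * s) : ℝ) ≤ 2 ^ (d - k * s) * Q := by
      apply bb_le k (2 * d) (d - k * s) hk
      calc (d - k * s) / k ≤ d - k * s := Nat.div_le_self _ _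
        _ ≤ 2 * d := by omega
    have h2 := hstep (t - s) (by omega)
    rw [show t - (t - s) = s by omega] at h2
    obtain ⟨j, hj⟩ : ∃ j, t - s = j + 1 := ⟨t - s - 1, by omega⟩
    have h3 : Q ≤ Q ^ (t - s) := by
      rw [hj, pow_succ]
      have : 1 ≤ Q ^ j := one_le_pow₀ hQ1
      nlinarith
    calc (N.choose s : ℝ) * (bb k (2 * d) (d - k * s) : ℝ)
        ≤ N.choose s * (2 ^ (d - k * s) * Q) := by gcongr
      _ ≤ N.choose s * (2 ^ (d - k * s) * Q ^ (t - s)) := by gcongr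
      _ = 2 ^ r * (N.choose s * (7 * 2 ^ k * Q) ^ (t - s)) * (1 / 7 : ℝ) ^ (t - s) := by
        rw [hD, pow_add, pow_mul, mul_pow, mul_pow, one_div, inv_pow]
        have h7 : (7 : ℝ) ^ (t - s) ≠ 0 := by positivity
        field_simp
      _ ≤ 2 ^ r * N.choose t * (1 / 7 : ℝ) ^ (t - s) := by gcongr
  have hsum : ∑ s ∈ range t, (N.choose s : ℝ) * (bb k (2 * d) (d - k * s) : ℝ) ≤
      2 ^ r * N.choose t * (1 / 6) := by
    calc _ ≤ ∑ s ∈ range t, 2 ^ r * N.choose t * (1 / 7 : ℝ) ^ (t - s) :=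
          Finset.sum_le_sum hterm
      _ = 2 ^ r * N.choose t * ∑ s ∈ range t, (1 / 7 : ℝ) ^ (t - s) := by
          rw [Finset.mul_sum]
      _ ≤ _ := by
          apply mul_le_mul_of_nonneg_left (geom t) (by positivity)
  have hxR : (2 : ℝ) * x ≤ 2 ^ r := by exact_mod_cast hx
  have hfirst : (N.choose t : ℝ) * x ≤ 2 ^ r * N.choose t * (1 / 2) := by
    have : (0 : ℝ) ≤ N.choose t := by positivity
    nlinarith
  have htot : (N.choose t : ℝ) * x + ∑ s ∈ range t, (N.choose s : ℝ) *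
      (bb k (2 * d) (d - k * s) : ℝ) ≤ 2 ^ r * N.choose t := by
    have : (0 : ℝ) ≤ 2 ^ r * N.choose t := by positivity
    linarith
  have htotN : N.choose t * x + ∑ s ∈ range t, N.choose s * bb k (2 * d) (d - k * s) ≤
      2 ^ r * N.choose t := by exact_mod_cast htot
  refine htotN.trans ?_
  unfold gg
  rw [← ht, ← hr]
  apply Nat.mul_le_mul le_rfl
  have h5 : N.choose t ≤ (n - r).choose t := by
    apply Nat.choose_le_choose
    omega
  refine h5.trans ?_
  exact Finset.single_le_sum (f := fun j => (n - r).choose j) (fun _ _ => Nat.zero_le _)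
    (Finset.mem_range.mpr (by omega))

end Pool.Agent.E8helper47.EF
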